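import Pool.Agent.W586.GZ.Stm

/-!
GZ-L1: averages of norm at least one with small coefficients.
-/

set_option autoImplicit false
open Filter Topology

namespace Pool.Agent.W699.GZ.L1
open Pool.Agent.W586.GZ

theorem block_sum (g : ℕ → ℝ) (d K : ℕ) :
    ∑ k ∈ Finset.range (K * d), g k = ∑ r ∈ Finset.range K, ∑ i ∈ Finset.range d, g (r * d + i) := by
  induction K with
  | zero => simp
  | succ K ih => rw [Nat.succ_mul, Finset.sum_range_add, ih, Finset.sum_range_succ]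

theorem n_ge (P : Par) (j : ℕ) : P.m (j + 1) ^ 3 ≤ P.n (j + 1) :=
  (Nat.le_mul_of_pos_right _ (pow_pos (Nat.succ_pos _) _)).trans (P.nS j)

theorem choose_p (P : Par) {B ε : ℝ} (hB : 0 < B) (hε : 0 < ε) :
    ∃ p : ℕ, 1 ≤ p ∧ 2 * B * P.m (2 * p) / P.n (2 * p) ≤ ε := by
  obtain ⟨p, hp⟩ := exists_nat_ge (2 * B / ε)
  refine ⟨p + 1, by omega, ?_⟩
  have h1 : P.m (2 * (p + 1)) ^ 3 ≤ P.n (2 * (p + 1)) := by
    have := n_ge P (2 * p + 1)
    have h2 : 2 * (p + 1) = 2 * p + 1 + 1 := by ring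
    rw [h2]; exact this
  have h2 : 2 * (p + 1) ≤ P.m (2 * (p + 1)) := P.mlt.id_le _
  have hm : (0 : ℝ) < P.m (2 * (p + 1)) := P.mpos' _
  have h3 : (P.m (2 * (p + 1)) : ℝ) ^ 3 ≤ P.n (2 * (p + 1)) := by exact_mod_cast h1
  have hn : (0 : ℝ) < P.n (2 * (p + 1)) := lt_of_lt_of_le (by positivity) h3
  have h4 : ((2 * (p + 1) : ℕ) : ℝ) ≤ P.m (2 * (p + 1)) := by exact_mod_cast h2
  push_cast at h4
  set M : ℝ := (P.m (2 * (p + 1)) : ℝ) with hM
  have hM1 : 1 ≤ M := by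
    have : (0 : ℝ) ≤ p := Nat.cast_nonneg _
    linarith
  rw [div_le_iff₀ hn]
  rw [div_le_iff₀ hε] at hp
  have h5 : 2 * B ≤ M * ε := by nlinarith
  calc 2 * B * M ≤ (M * ε) * M := by gcongr
    _ = ε * M ^ 2 := by ring
    _ ≤ ε * M ^ 3 := by
        gcongr
        norm_num
    _ ≤ ε * P.n (2 * (p + 1)) := by gcongr

theorem main : S_JAMES → S_L1 := by
  intro hJ P N ε hN hε x hx
  obtain ⟨B, hB, hJ⟩ := hJ P N hN
  obtain ⟨p, hp1, hp⟩ := choose_p P hB hε
  set d := P.n (2 * p) with hd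
  have hd0 : 0 < d := by
    have h1 := P.n0
    have h2 := P.nlt.monotone (Nat.zero_le (2 * p))
    omega
  have hdR : (0 : ℝ) < d := by exact_mod_cast hd0
  have hm : (0 : ℝ) < P.m (2 * p) := P.mpos' _
  set s : ℕ → ℕ → ℝ := fun r n => ∑ i ∈ Finset.range d, x (r * d + i) n with hs
  -- functionals
  have hlo : ∀ k, ∃ (w : Option ℕ) (f : ℕ →₀ ℚ), W P w f ∧ 1 / 2 ≤ ev f (x k) := by
    intro k
    obtain ⟨f, ⟨w, hw⟩, hf⟩ := hx.lo k
    exact ⟨w, f, hw, hf⟩
  choose w f hW hf using hlo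
  have hF : ∀ r, ∃ F ∈ WW P, (d : ℝ) / (2 * P.m (2 * p)) ≤ ev F (s r) := by
    intro r
    obtain ⟨F, hF1, _, hF2⟩ := lower_est P p d le_rfl (fun i => x (r * d + i)) (fun i => w (r * d + i))
      (fun i => f (r * d + i)) (fun _ => 1 / 2) (fun i _ => hW _) (fun i _ => hf _)
      (fun i l hil _ => hx.succ _ _ (by omega))
    refine ⟨F, ⟨_, hF1⟩, ?_⟩
    refine le_trans (le_of_eq ?_) hF2
    rw [Finset.sum_const, Finset.card_range, nsmul_eq_mul]
    field_simp
  -- supports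
  have hsupp : ∀ r n, s r n ≠ 0 → ∃ i, i < d ∧ x (r * d + i) n ≠ 0 := by
    intro r n h
    obtain ⟨i, hi, hne⟩ := Finset.exists_ne_zero_of_sum_ne_zero h
    exact ⟨i, Finset.mem_range.1 hi, hne⟩
  choose Mb hMb using hx.fin
  have hfin : ∀ r, ∃ M : ℕ, ∀ n, s r n ≠ 0 → n < M := by
    intro r
    refine ⟨∑ i ∈ Finset.range d, Mb (r * d + i), fun n hn => ?_⟩
    obtain ⟨i, hi, hne⟩ := hsupp r n hn
    refine lt_of_lt_of_le (hMb _ n hne) ?_
    exact Finset.single_le_sum (f := fun i => Mb (r * d + i)) (fun _ _ => Nat.zero_le _)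
      (Finset.mem_range.2 hi)
  choose Ms hMs using hfin
  have hnu : ∀ r, ∃ ν : ℝ, 0 < ν ∧ NB (WW P) (s r) ν ∧ ∃ g ∈ WW P, ν / 2 < ev g (s r) := by
    intro r
    refine exists_norm (WW_idl P) (Finset.range (Ms r)) (fun i hi => Finset.mem_range.2 (hMs r i hi)) ?_
    by_contra hcon
    push Not at hcon
    obtain ⟨F, _, hF2⟩ := hF r
    have h0 : s r = fun _ => 0 := funext hcon
    rw [h0, ev_zero_right] at hF2
    have : 0 < (d : ℝ) / (2 * P.m (2 * p)) := by positivity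
    linarith
  choose ν hν0 hνN g hgW hg using hnu
  have hνd : ∀ r, (d : ℝ) / (2 * P.m (2 * p)) ≤ ν r := by
    intro r
    obtain ⟨F, hF1, hF2⟩ := hF r
    exact hF2.trans (hνN r F hF1)
  set z : ℕ → ℕ → ℝ := fun r n => (ν r)⁻¹ * s r n with hz
  have hzs : ∀ r n, z r n ≠ 0 → s r n ≠ 0 := fun r n h h0 => h (by rw [hz]; simp only; rw [h0, mul_zero])
  have hBS : BS P z := by
    refine ⟨?_, ?_, ?_, ?_⟩
    · intro i l hil a b ha hb
      obtain ⟨i', hi', hne⟩ := hsupp i a (hzs i a ha)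
      obtain ⟨l', hl', hne'⟩ := hsupp l b (hzs l b hb)
      have : i * d + i' < l * d + l' := by
        have : (i + 1) * d ≤ l * d := Nat.mul_le_mul_right _ hil
        have : (i + 1) * d = i * d + d := by ring
        omega
      exact hx.succ _ _ this a b hne hne'
    · intro r
      exact ⟨Ms r, fun n hn => hMs r n (hzs r n hn)⟩
    · intro r
      have := (hνN r).smul (ν r)⁻¹
      rwa [abs_of_pos (inv_pos.2 (hν0 r)), inv_mul_cancel₀ (hν0 r).ne'] at this
    · intro r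
      refine ⟨g r, hgW r, ?_⟩
      rw [hz]
      simp only
      rw [ev_smul_right, abs_of_pos (inv_pos.2 (hν0 r))]
      have h1 := hg r
      have h2 : (1 : ℝ) / 2 = (ν r)⁻¹ * (ν r / 2) := by
        have := (hν0 r).ne'
        field_simp
      rw [h2]
      exact mul_le_mul_of_nonneg_left h1.le (inv_pos.2 (hν0 r)).le
  obtain ⟨b, K, hb1, hb2, hb3, F, hFW, hF1⟩ := hJ z hBS 0
  have hsum : ∀ n, ∑ k ∈ Finset.range (K * d), (b (k / d) / ν (k / d)) * x k n =
      ∑ r ∈ Finset.range K, b r * z r n := by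
    intro n
    rw [block_sum]
    refine Finset.sum_congr rfl fun r _ => ?_
    rw [hz, hs]
    simp only
    rw [Finset.mul_sum, Finset.mul_sum]
    refine Finset.sum_congr rfl fun i hi => ?_
    have hi' := Finset.mem_range.1 hi
    have : (r * d + i) / d = r := by
      rw [mul_comm, Nat.mul_add_div hd0, Nat.div_eq_of_lt hi', add_zero]
    rw [this]
    ring
  refine ⟨fun k => b (k / d) / ν (k / d), K * d, ?_, ?_, ?_, F, hFW, ?_⟩
  · intro k hk
    have h1 : b (k / d) ≠ 0 := fun h => hk (by simp only; rw [h, zero_div])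
    have h2 := (hb1 _ h1).2
    exact (Nat.div_lt_iff_lt_mul hd0).1 h2
  · intro k
    have h1 := hb2 (k / d)
    have h2 := hνd (k / d)
    have h3 := hν0 (k / d)
    refine ⟨div_nonneg h1.1 h3.le, ?_⟩
    have h4 : b (k / d) / ν (k / d) ≤ B / (d / (2 * P.m (2 * p))) := by
      gcongr
      · exact h1.2
    refine h4.trans (le_trans (le_of_eq ?_) hp)
    field_simp
  · simp only [hsum]
    exact hb3
  · simp only [hsum]
    exact hF1

end Pool.Agent.W699.GZ.L1
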